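import Mathlib

/-! Extenders between spaces of continuous functions with the topology of pointwise convergence. -/

namespace Pool.Agent.H64Z.Ext

/-- `C_p(Z)`: the continuous real functions on `Z`, as a linear subspace of the product `ℝ^Z`
with the subspace topology (pointwise convergence). -/
def Cp (Z : Type) [TopologicalSpace Z] : Submodule ℝ (Z → ℝ) where
  carrier := {f | Continuous f}
  add_mem' hf hg := Continuous.add hf hg
  zero_mem' := continuous_zero
  smul_mem' c _ hf := Continuous.const_smul hf c

variable {X : Type} [TopologicalSpace X]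

/-- `φ` is an extender from the subspace `Y` to `X`. -/
def IsExtender (Y : Set X) (φ : Cp Y → Cp X) : Prop :=
  ∀ (f : Cp Y) (y : Y), (φ f).1 y.1 = f.1 y

/-- `Y` is t-embedded in `X`: there is a continuous extender. -/
def TEmbedded (Y : Set X) : Prop := ∃ φ : Cp Y → Cp X, Continuous φ ∧ IsExtender Y φ

/-- `Y` is l-embedded in `X`: there is a continuous linear extender. -/
def LEmbedded (Y : Set X) : Prop :=
  ∃ φ : Cp Y → Cp X, Continuous φ ∧ IsLinearMap ℝ φ ∧ IsExtender Y φ

/-- Every closed subspace of `X` is l-embedded. -/
def Extendial (X : Type) [TopologicalSpace X] : Prop := ∀ Y : Set X, IsClosed Y → LEmbedded Y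

/-- Every closed subspace of `X` is t-embedded. -/
def TExtendial (X : Type) [TopologicalSpace X] : Prop := ∀ Y : Set X, IsClosed Y → TEmbedded Y

end Pool.Agent.H64Z.Ext
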