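import Mathlib
import Pool.Agent.H64Z.Ext.Defs

namespace Pool.Agent.H64Z.Ext

open Filter Topology OnePoint

/-- The double arrow space over the extended line: lower sets of reals. -/
abbrev D : Type := {u : ℝ → Bool // ∀ s t : ℝ, s ≤ t → u t = true → u s = true}

instance : CompactSpace D := by
  refine isCompact_iff_compactSpace.1 (IsClosed.isCompact ?_)
  have : {u : ℝ → Bool | ∀ s t : ℝ, s ≤ t → u t = true → u s = true} =
      ⋂ s : ℝ, ⋂ t : ℝ, ⋂ _ : s ≤ t, (fun u : ℝ → Bool => (u s, u t)) ⁻¹'
        {p : Bool × Bool | p.2 = true → p.1 = true} := by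
    ext u; simp
  change IsClosed {u : ℝ → Bool | ∀ s t : ℝ, s ≤ t → u t = true → u s = true}
  rw [this]
  refine isClosed_iInter fun s => isClosed_iInter fun t => isClosed_iInter fun _ => ?_
  exact (isClosed_discrete _).preimage (by fun_prop)

theorem continuous_coord (t : ℝ) : Continuous fun x : D => x.1 t :=
  (continuous_apply t).comp continuous_subtype_val

theorem mem_of_approx (A : Set D) (hA : IsClosed A) (hne : A.Nonempty) (y : D)
    (h1 : ∀ s, y.1 s = true → ∃ a ∈ A, a.1 s = true)
    (h2 : ∀ t, y.1 t = false → ∃ a ∈ A, a.1 t = false)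
    (h3 : ∀ s t, y.1 s = true → y.1 t = false → ∃ a ∈ A, a.1 s = true ∧ a.1 t = false) :
    y ∈ A := by
  classical
  have key : ∀ F : Finset ℝ, ∃ a ∈ A, ∀ t ∈ F, a.1 t = y.1 t := by
    intro F
    have hdown : ∀ (a : D) (s t : ℝ), s ≤ t → a.1 s = false → a.1 t = false := by
      intro a s t hst hs
      by_contra h
      have := a.2 s t hst (by simpa using h)
      rw [hs] at this
      exact absurd this (by simp)
    by_cases hT : (F.filter fun t => y.1 t = true).Nonempty
    · set s := (F.filter fun t => y.1 t = true).max' hT with hs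
      have hsm := Finset.mem_filter.1 ((F.filter fun t => y.1 t = true).max'_mem hT)
      have hsle : ∀ t ∈ F, y.1 t = true → t ≤ s := fun t ht hy =>
        Finset.le_max' _ t (Finset.mem_filter.2 ⟨ht, hy⟩)
      by_cases hF : (F.filter fun t => y.1 t = false).Nonempty
      · set r := (F.filter fun t => y.1 t = false).min' hF with hr
        have hrm := Finset.mem_filter.1 ((F.filter fun t => y.1 t = false).min'_mem hF)
        have hrle : ∀ t ∈ F, y.1 t = false → r ≤ t := fun t ht hy =>
          Finset.min'_le _ t (Finset.mem_filter.2 ⟨ht, hy⟩)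
        obtain ⟨a, ha, has, har⟩ := h3 s r hsm.2 hrm.2
        refine ⟨a, ha, fun t ht => ?_⟩
        cases hy : y.1 t
        · exact hdown a r t (hrle t ht hy) har
        · exact a.2 t s (hsle t ht hy) has
      · obtain ⟨a, ha, has⟩ := h1 s hsm.2
        refine ⟨a, ha, fun t ht => ?_⟩
        cases hy : y.1 t
        · exact absurd ⟨t, Finset.mem_filter.2 ⟨ht, hy⟩⟩ hF
        · exact a.2 t s (hsle t ht hy) has
    · by_cases hF : (F.filter fun t => y.1 t = false).Nonempty
      · set r := (F.filter fun t => y.1 t = false).min' hF with hr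
        have hrm := Finset.mem_filter.1 ((F.filter fun t => y.1 t = false).min'_mem hF)
        have hrle : ∀ t ∈ F, y.1 t = false → r ≤ t := fun t ht hy =>
          Finset.min'_le _ t (Finset.mem_filter.2 ⟨ht, hy⟩)
        obtain ⟨a, ha, har⟩ := h2 r hrm.2
        refine ⟨a, ha, fun t ht => ?_⟩
        cases hy : y.1 t
        · exact hdown a r t (hrle t ht hy) har
        · exact absurd ⟨t, Finset.mem_filter.2 ⟨ht, hy⟩⟩ hT
      · obtain ⟨a, ha⟩ := hne
        refine ⟨a, ha, fun t ht => ?_⟩
        cases hy : y.1 t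
        · exact absurd ⟨t, Finset.mem_filter.2 ⟨ht, hy⟩⟩ hF
        · exact absurd ⟨t, Finset.mem_filter.2 ⟨ht, hy⟩⟩ hT
  choose a ha hay using key
  have ht : Tendsto a atTop (𝓝 y) := by
    rw [tendsto_subtype_rng, tendsto_pi_nhds]
    intro t
    refine tendsto_const_nhds.congr' ?_
    filter_upwards [eventually_ge_atTop ({t} : Finset ℝ)] with F hF
    exact (hay F t (hF (Finset.mem_singleton_self t))).symm
  exact hA.mem_of_tendsto ht (Eventually.of_forall ha)

/-- Every nonempty closed subset of the double arrow space is a retract. -/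
theorem exists_retraction (A : Set D) (hA : IsClosed A) (hne : A.Nonempty) :
    ∃ r : D → D, Continuous r ∧ (∀ x, r x ∈ A) ∧ ∀ a ∈ A, r a = a := by
  classical
  let cls : ℝ → (A → Bool) := fun t a => a.1.1 t
  let c : ℝ → ℝ := fun t => Function.invFun cls (cls t)
  have hc : ∀ t, cls (c t) = cls t := fun t => Function.invFun_eq ⟨t, rfl⟩
  have hc' : ∀ t, ∀ a ∈ A, a.1 (c t) = a.1 t := fun t a ha => congrFun (hc t) ⟨a, ha⟩
  have hcc : ∀ s t, (∀ a ∈ A, a.1 s = a.1 t) → c s = c t := by
    intro s t h
    have : cls s = cls t := funext fun a => h a.1 a.2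
    simp only [c, this]
  let v : D → ℝ → Bool := fun x t =>
    if ∀ a ∈ A, a.1 t = false then false else if ∀ a ∈ A, a.1 t = true then true else x.1 (c t)
  have hv1 : ∀ x s, v x s = true → ∃ a ∈ A, a.1 s = true := by
    intro x s h
    by_contra hn
    push Not at hn
    have : ∀ a ∈ A, a.1 s = false := fun a ha => by simpa using hn a ha
    simp only [v, if_pos this] at h
    exact absurd h (by simp)
  have hv2 : ∀ x s, v x s = false → ∃ a ∈ A, a.1 s = false := by
    intro x s h
    by_contra hn
    push Not at hn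
    have h1 : ∀ a ∈ A, a.1 s = true := fun a ha => by simpa using hn a ha
    have h2 : ¬ ∀ a ∈ A, a.1 s = false := by
      intro h2
      obtain ⟨a, ha⟩ := hne
      exact hn a ha (h2 a ha)
    simp only [v, if_neg h2, if_pos h1] at h
    exact absurd h (by simp)
  have hvc : ∀ x s t, (∀ a ∈ A, a.1 s = a.1 t) → v x s = v x t := by
    intro x s t h
    have e1 : (∀ a ∈ A, a.1 s = false) ↔ ∀ a ∈ A, a.1 t = false :=
      forall₂_congr fun a ha => by rw [h a ha]
    have e2 : (∀ a ∈ A, a.1 s = true) ↔ ∀ a ∈ A, a.1 t = true :=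
      forall₂_congr fun a ha => by rw [h a ha]
    simp only [v, e1, e2, hcc s t h]
  have hsep : ∀ s t, s ≤ t → ¬ (∀ a ∈ A, a.1 s = a.1 t) →
      ∃ a ∈ A, a.1 s = true ∧ a.1 t = false := by
    intro s t hst h
    push Not at h
    obtain ⟨a, ha, hne⟩ := h
    refine ⟨a, ha, ?_⟩
    cases h1 : a.1 t
    · rw [h1] at hne
      exact ⟨by simpa using hne, rfl⟩
    · exact absurd ((a.2 s t hst h1).trans h1.symm) hne
  have hvm : ∀ x s t, s ≤ t → v x t = true → v x s = true := by
    intro x s t hst ht
    by_cases h : ∀ a ∈ A, a.1 s = a.1 t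
    · rw [hvc x s t h]; exact ht
    obtain ⟨a, ha, has, hat⟩ := hsep s t hst h
    have h1 : ¬ ∀ a ∈ A, a.1 s = false := fun h1 => by
      rw [h1 a ha] at has; exact absurd has (by simp)
    by_cases h2 : ∀ a ∈ A, a.1 s = true
    · simp only [v, if_neg h1, if_pos h2]
    have h3 : ¬ ∀ a ∈ A, a.1 t = true := fun h3 => by
      rw [h3 a ha] at hat; exact absurd hat (by simp)
    have h4 : ¬ ∀ a ∈ A, a.1 t = false := fun h4 => by
      simp only [v, if_pos h4] at ht; exact absurd ht (by simp)
    simp only [v, if_neg h4, if_neg h3] at ht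
    simp only [v, if_neg h1, if_neg h2]
    refine x.2 _ _ ?_ ht
    by_contra hlt
    have h5 := a.2 _ _ (le_of_lt (not_le.1 hlt)) ((hc' s a ha).trans has)
    rw [hc' t a ha, hat] at h5
    exact absurd h5 (by simp)
  refine ⟨fun x => ⟨v x, hvm x⟩, ?_, ?_, ?_⟩
  · refine Continuous.subtype_mk (continuous_pi fun t => ?_) _
    simp only [v]
    split_ifs
    · exact continuous_const
    · exact continuous_const
    · exact continuous_coord _
  · intro x
    refine mem_of_approx A hA hne _ (hv1 x) (hv2 x) ?_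
    intro s t hs ht
    change v x s = true at hs
    change v x t = false at ht
    have hst : s ≤ t := by
      by_contra h
      rw [hvm x t s (le_of_lt (not_le.1 h)) hs] at ht
      exact absurd ht (by simp)
    refine hsep s t hst fun h => ?_
    rw [hvc x s t h, ht] at hs
    exact absurd hs (by simp)
  · intro a ha
    apply Subtype.ext
    funext t
    simp only [v]
    split_ifs with h1 h2
    · exact (h1 a ha).symm
    · exact (h2 a ha).symm
    · exact hc' t a ha

theorem nhds_coe_nat (n : ℕ) : 𝓝 (n : OnePoint ℕ) = pure (n : OnePoint ℕ) := by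
  rw [OnePoint.nhds_coe_eq, nhds_discrete, map_pure]

theorem eventually_ne_nat (n : ℕ) : ∀ᶠ m in 𝓝 (∞ : OnePoint ℕ), m ≠ (n : OnePoint ℕ) :=
  isOpen_ne.mem_nhds (OnePoint.infty_ne_coe n)

/-- continuity on the product with a convergent sequence -/
theorem continuous_levels {K : Type} [TopologicalSpace K] (F : OnePoint ℕ × K → ℝ)
    (h1 : ∀ m, Continuous fun x => F (m, x))
    (h2 : ∀ ε > 0, ∀ᶠ m in 𝓝 (∞ : OnePoint ℕ), ∀ x, |F (m, x) - F (∞, x)| < ε) :
    Continuous F := by
  rw [continuous_iff_continuousAt]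
  rintro ⟨m, x⟩
  induction m using OnePoint.rec with
  | infty =>
    rw [ContinuousAt, Metric.tendsto_nhds]
    intro ε hε
    have e1 := h2 (ε / 2) (by positivity)
    have e2 := Metric.tendsto_nhds.1 ((h1 ∞).tendsto x) (ε / 2) (by positivity)
    rw [nhds_prod_eq]
    filter_upwards [e1.prod_mk e2] with p hp
    have a1 := hp.1 p.2
    have a2 := hp.2
    rw [Real.dist_eq] at a2 ⊢
    have := abs_sub_le (F p) (F (∞, p.2)) (F (∞, x))
    have a3 : F (p.1, p.2) = F p := rfl
    rw [a3] at a1
    linarith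
  | coe n =>
    rw [ContinuousAt, nhds_prod_eq, nhds_coe_nat, pure_prod, tendsto_map'_iff]
    exact (h1 n).tendsto x

theorem extendial_prod {K : Type} [TopologicalSpace K] [CompactSpace K]
    (hK : ∀ A : Set K, IsClosed A → A.Nonempty →
      ∃ r : K → K, Continuous r ∧ (∀ x, r x ∈ A) ∧ ∀ a ∈ A, r a = a) :
    Extendial (OnePoint ℕ × K) := by
  classical
  intro A hA
  have hlev : ∀ m : OnePoint ℕ, ∃ r : K → K, Continuous r ∧
      ((∃ x, (m, x) ∈ A) → ∀ x, (m, r x) ∈ A) ∧ ∀ a, (m, a) ∈ A → r a = a := by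
    intro m
    by_cases h : ∃ x, (m, x) ∈ A
    · obtain ⟨r, h1, h2, h3⟩ := hK {x | (m, x) ∈ A} (hA.preimage (by fun_prop)) h
      exact ⟨r, h1, fun _ => h2, h3⟩
    · exact ⟨id, continuous_id, fun h' => absurd h' h, fun _ _ => rfl⟩
  choose r hr1 hr2 hr3 using hlev
  let ev : Cp A → OnePoint ℕ × K → ℝ := fun f p => if h : p ∈ A then f.1 ⟨p, h⟩ else 0
  have ev_add : ∀ f g p, ev (f + g) p = ev f p + ev g p := by
    intro f g p
    by_cases h : p ∈ A <;> simp [ev, h]
  have ev_smul : ∀ (c : ℝ) f p, ev (c • f) p = c * ev f p := by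
    intro c f p
    by_cases h : p ∈ A <;> simp [ev, h]
  have ev_cont : ∀ p, Continuous fun f => ev f p := by
    intro p
    by_cases h : p ∈ A
    · simp only [ev, dif_pos h]
      exact (continuous_apply _).comp continuous_subtype_val
    · simp only [ev, dif_neg h]
      exact continuous_const
  have ev_lev : ∀ f m, Continuous fun x => ev f (m, r m x) := by
    intro f m
    by_cases h : ∃ x, (m, x) ∈ A
    · have e : (fun x => ev f (m, r m x)) = fun x => f.1 ⟨(m, r m x), hr2 m h x⟩ := by
        funext x; simp only [ev, dif_pos (hr2 m h x)]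
      rw [e]
      have hf : Continuous f.1 := f.2
      exact hf.comp (Continuous.subtype_mk (continuous_const.prodMk (hr1 m)) _)
    · have e : (fun x => ev f (m, r m x)) = fun _ => 0 := by
        funext x
        have : (m, r m x) ∉ A := fun h' => h ⟨_, h'⟩
        simp only [ev, dif_neg this]
      rw [e]; exact continuous_const
  let c : OnePoint ℕ → ℝ := fun m => if ∃ x, (m, x) ∈ A then 1 else 0
  let F : Cp A → OnePoint ℕ × K → ℝ := fun f p =>
    ev f (∞, r ∞ p.2) + ev f (p.1, r p.1 p.2) - c p.1 * ev f (∞, r ∞ (r p.1 p.2))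
  have hFtop : ∀ f x, F f (∞, x) = ev f (∞, r ∞ x) := by
    intro f x
    by_cases h : ∃ x, ((∞ : OnePoint ℕ), x) ∈ A
    · simp only [F, c, if_pos h, hr3 ∞ _ (hr2 ∞ h x)]
      ring
    · have : ((∞ : OnePoint ℕ), r ∞ x) ∉ A := fun h' => h ⟨_, h'⟩
      simp only [F, c, if_neg h, ev, dif_neg this]
      ring
  have hF : ∀ f, Continuous (F f) := by
    intro f
    refine continuous_levels _ (fun m => ?_) ?_
    · have h3 : Continuous fun x => c m * ev f (∞, r ∞ (r m x)) :=
        (continuous_const (y := c m)).mul ((ev_lev f ∞).comp (hr1 m))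
      exact ((ev_lev f ∞).add (ev_lev f m)).sub h3
    · intro ε hε
      have hf : Continuous f.1 := f.2
      have hh : Continuous fun p : A => |f.1 p - ev f (∞, r ∞ p.1.2)| :=
        (hf.sub ((ev_lev f ∞).comp (continuous_snd.comp continuous_subtype_val))).abs
      obtain ⟨U, hU, hUe⟩ := isOpen_induced_iff.1 (isOpen_lt hh (continuous_const (y := ε)))
      have key : ∀ᶠ m in 𝓝 (∞ : OnePoint ℕ), ∀ x ∈ (Set.univ : Set K), (m, x) ∈ U ∪ Aᶜ := by
        refine isCompact_univ.eventually_forall_of_forall_eventually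
          (P := fun m x => (m, x) ∈ U ∪ Aᶜ) fun y _ => ?_
        refine (hU.union hA.isOpen_compl).mem_nhds ?_
        by_cases hy : ((∞ : OnePoint ℕ), y) ∈ A
        · left
          have : (⟨(∞, y), hy⟩ : A) ∈ Subtype.val ⁻¹' U := by
            rw [hUe]
            simp only [Set.mem_ofPred_eq, hr3 ∞ y hy, ev, dif_pos hy, sub_self, abs_zero]
            exact hε
          exact this
        · right; exact hy
      filter_upwards [key] with m hm x
      rw [hFtop]
      by_cases h : ∃ x, (m, x) ∈ A
      · have hmem := hr2 m h x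
        have h1 : (⟨(m, r m x), hmem⟩ : A) ∈ Subtype.val ⁻¹' U := by
          rcases hm (r m x) (Set.mem_univ _) with h2 | h2
          · exact h2
          · exact absurd hmem h2
        rw [hUe] at h1
        have e : F f (m, x) - ev f (∞, r ∞ x) =
            f.1 ⟨(m, r m x), hmem⟩ - ev f (∞, r ∞ (r m x)) := by
          have e2 : ev f (m, r m x) = f.1 ⟨(m, r m x), hmem⟩ := by simp only [ev, dif_pos hmem]
          simp only [F, c, if_pos h, e2]
          ring
        rw [e]
        exact h1
      · have : (m, r m x) ∉ A := fun h' => h ⟨_, h'⟩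
        have e2 : ev f (m, r m x) = 0 := by simp only [ev, dif_neg this]
        simp only [F, c, if_neg h, e2]
        simpa using hε
  refine ⟨fun f => ⟨F f, hF f⟩, ?_, ⟨?_, ?_⟩, ?_⟩
  · refine Continuous.subtype_mk (continuous_pi fun p => ?_) _
    exact ((ev_cont _).add (ev_cont _)).sub (continuous_const.mul (ev_cont _))
  · intro f g
    apply Subtype.ext
    funext p
    change F (f + g) p = F f p + F g p
    simp only [F, ev_add]
    ring
  · intro a f
    apply Subtype.ext
    funext p
    change F (a • f) p = a * F f p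
    simp only [F, ev_smul]
    ring
  · rintro f ⟨⟨m, x⟩, hp⟩
    change F f (m, x) = _
    have h : ∃ x, (m, x) ∈ A := ⟨x, hp⟩
    have e2 : ev f (m, x) = f.1 ⟨(m, x), hp⟩ := by simp only [ev, dif_pos hp]
    simp only [F, c, if_pos h, hr3 m x hp, e2]
    ring

theorem extendial_X : Extendial (OnePoint ℕ × D) := extendial_prod exists_retraction

end Pool.Agent.H64Z.Ext
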