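import Mathlib
import Pool.Agent.H64Z.Ext.Defs
import Pool.Agent.H64Z.Ext.Arrow

namespace Pool.Agent.H64Z.Ext

open Filter Topology OnePoint Set

theorem exists_fat : ∃ S : ℕ → Set ℝ, (∀ t m n, t ∈ S m → t ∈ S n → m = n) ∧
    ∀ n a b, a < b → ∀ P : ℕ → Set ℝ, S n ∩ Ioo a b ⊆ ⋃ k, P k →
      ∃ k, (interior (closure (P k))).Nonempty := by
  obtain ⟨φ, hφ⟩ := Module.Projective.exists_dual_eq_one ℚ (one_ne_zero : (1 : ℝ) ≠ 0)
  have hker : ∃ h : ℝ, 0 < h ∧ φ h = 0 := by
    by_contra hn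
    push Not at hn
    have hinj : Function.Injective φ := by
      rw [injective_iff_map_eq_zero]
      intro x hx
      rcases lt_trichotomy x 0 with h | h | h
      · exact absurd (by rw [map_neg, hx, neg_zero]) (hn (-x) (by linarith))
      · exact h
      · exact absurd hx (hn x h)
    exact not_countable (hinj.countable : Countable ℝ)
  obtain ⟨h, hh0, hh⟩ := hker
  refine ⟨fun n => {t | φ t = n}, ?_, ?_⟩
  · intro t m n hm hn
    have : (m : ℚ) = n := (Eq.symm hm).trans hn
    exact_mod_cast this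
  · intro n a b hab P hP
    let f : ℕ × ℚ × ℚ → Set ℝ := fun i =>
      (Homeomorph.subRight ((i.2.1 : ℝ) + i.2.2 * h)) ⁻¹' closure (P i.1)
    have hcl : ∀ i, IsClosed (f i) := fun i =>
      isClosed_closure.preimage (Homeomorph.continuous _)
    have hcov : ⋃ i, f i = univ := by
      rw [eq_univ_iff_forall]
      intro t
      set q : ℚ := φ t - n with hq
      obtain ⟨r, hr1, hr2⟩ := exists_rat_btwn
        (show (t - q - b) / h < (t - q - a) / h from
          div_lt_div_of_pos_right (by linarith) hh0)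
      rw [div_lt_iff₀ hh0] at hr1
      rw [lt_div_iff₀ hh0] at hr2
      have hmem : t - ((q : ℝ) + r * h) ∈ {t | φ t = n} ∩ Ioo a b := by
        refine ⟨?_, by linarith, by linarith⟩
        have e : t - ((q : ℝ) + r * h) = t - q • (1 : ℝ) - r • h := by
          simp only [Rat.smul_def]; ring
        change φ _ = n
        rw [e, map_sub, map_sub, φ.map_smul, φ.map_smul, hφ, hh, hq]
        simp
      obtain ⟨k, hk⟩ := mem_iUnion.1 (hP hmem)
      exact mem_iUnion.2 ⟨(k, q, r), subset_closure hk⟩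
    obtain ⟨i, x, hx⟩ := nonempty_interior_of_iUnion_of_closed hcl hcov
    simp only [f] at hx
    rw [← Homeomorph.preimage_interior] at hx
    exact ⟨i.1, _, hx⟩

/-- finite support of a neighbourhood in `C_p` -/
theorem exists_finite_support {Z : Type} [TopologicalSpace Z] (U : Set (Cp Z)) (hU : IsOpen U)
    (f : Cp Z) (hf : f ∈ U) :
    ∃ E : Finset Z, ∀ g : Cp Z, (∀ a ∈ E, g.1 a = f.1 a) → g ∈ U := by
  obtain ⟨V, hV, hVe⟩ := isOpen_induced_iff.1 hU
  rw [← hVe] at hf
  obtain ⟨I, u, h1, h2⟩ := isOpen_pi_iff.1 hV f.1 hf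
  refine ⟨I, fun g hg => ?_⟩
  rw [← hVe]
  refine h2 fun a ha => ?_
  rw [hg a ha]
  exact (h1 a ha).2

theorem exists_interp {Z : Type} [TopologicalSpace Z] [CompactSpace Z] [T2Space Z]
    (E : Finset Z) (w : Z → ℝ) : ∃ g : Cp Z, ∀ a ∈ E, g.1 a = w a := by
  have hcl : IsClosed (E : Set Z) := E.finite_toSet.isClosed
  obtain ⟨g, hg⟩ := ContinuousMap.exists_restrict_eq hcl
    (⟨fun a => w a.1, continuous_of_discreteTopology⟩ : C((E : Set Z), ℝ))
  refine ⟨⟨g, g.continuous⟩, fun a ha => ?_⟩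
  exact DFunLike.congr_fun hg ⟨a, ha⟩

/-- the left point over `y` -/
noncomputable def lo (y : ℝ) : D := ⟨fun s => decide (s < y), fun s t h ht => by
  simp only [decide_eq_true_eq] at ht ⊢
  exact lt_of_le_of_lt h ht⟩

/-- the right point over `y` -/
noncomputable def hi (y : ℝ) : D := ⟨fun s => decide (s ≤ y), fun s t h ht => by
  simp only [decide_eq_true_eq] at ht ⊢
  exact le_trans h ht⟩

theorem lo_left (t : ℝ) : Tendsto lo (𝓝[≤] t) (𝓝 (lo t)) := by
  rw [tendsto_subtype_rng, tendsto_pi_nhds]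
  intro s
  refine tendsto_const_nhds.congr' ?_
  by_cases h : s < t
  · filter_upwards [mem_nhdsWithin_of_mem_nhds (lt_mem_nhds h)] with y hy
    simp [lo, h, hy]
  · filter_upwards [self_mem_nhdsWithin] with y hy
    have : ¬ s < y := fun h' => h (lt_of_lt_of_le h' hy)
    simp [lo, h, this]

theorem lo_right (t : ℝ) : Tendsto lo (𝓝[>] t) (𝓝 (hi t)) := by
  rw [tendsto_subtype_rng, tendsto_pi_nhds]
  intro s
  refine tendsto_const_nhds.congr' ?_
  by_cases h : s ≤ t
  · filter_upwards [self_mem_nhdsWithin] with y hy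
    have : s < y := lt_of_le_of_lt h hy
    simp [lo, hi, h, this]
  · filter_upwards [mem_nhdsWithin_of_mem_nhds (gt_mem_nhds (not_le.1 h))] with y hy
    have : ¬ s < y := not_lt.2 (le_of_lt hy)
    simp [lo, hi, h, this]

theorem eventually_left (x : D) (t : ℝ) (hx : x ≠ lo t) : ∀ᶠ s in 𝓝[<] t, x.1 s = x.1 t := by
  cases ht : x.1 t
  · have : ∃ s0, s0 < t ∧ x.1 s0 = false := by
      by_contra hn
      push Not at hn
      apply hx
      apply Subtype.ext
      funext s
      by_cases hs : s < t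
      · have := hn s hs
        simp only [lo, hs, decide_true]
        simpa using this
      · simp only [lo, hs, decide_false]
        by_contra h
        have := x.2 t s (not_lt.1 hs) (by simpa using h)
        rw [ht] at this
        exact absurd this (by simp)
    obtain ⟨s0, h0, h1⟩ := this
    filter_upwards [mem_nhdsWithin_of_mem_nhds (lt_mem_nhds h0)] with s hs
    by_contra h
    have := x.2 s0 s (le_of_lt hs) (by simpa using h)
    rw [h1] at this
    exact absurd this (by simp)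
  · filter_upwards [self_mem_nhdsWithin] with s hs
    exact x.2 s t (le_of_lt hs) ht

/-- indicator coordinate -/
noncomputable def ind (x : D) (t : ℝ) : ℝ := if x.1 t = true then 1 else 0

theorem continuous_ind (t : ℝ) : Continuous fun x : D => ind x t :=
  (continuous_of_discreteTopology (f := fun b : Bool => if b = true then (1 : ℝ) else 0)).comp
    (continuous_coord t)

open Classical in
/-- the quotient map -/
noncomputable def qq (S : ℕ → Set ℝ) (p : OnePoint ℕ × D) (t : ℝ) : ℝ :=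
  if ∃ n : ℕ, p.1 = n ∧ t ∈ S n then 0 else ind p.2 t

theorem qq_top (S : ℕ → Set ℝ) (x : D) (t : ℝ) : qq S (∞, x) t = ind x t := by
  unfold qq
  rw [if_neg]
  rintro ⟨n, h, -⟩
  exact OnePoint.infty_ne_coe n h

theorem continuous_qq (S : ℕ → Set ℝ) (hS : ∀ t m n, t ∈ S m → t ∈ S n → m = n) :
    Continuous (qq S) := by
  refine continuous_pi fun t => continuous_levels _ (fun m => ?_) ?_
  · unfold qq
    simp only
    split_ifs
    · exact continuous_const
    · exact continuous_ind t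
  · intro ε hε
    have : ∀ᶠ m : OnePoint ℕ in 𝓝 ∞, ¬ ∃ n : ℕ, m = n ∧ t ∈ S n := by
      by_cases h : ∃ n, t ∈ S n
      · obtain ⟨n, hn⟩ := h
        filter_upwards [eventually_ne_nat n] with m hm
        rintro ⟨k, h1, h2⟩
        exact hm (by rw [h1, hS t k n h2 hn])
      · exact Eventually.of_forall fun m ⟨k, _, h2⟩ => h ⟨k, h2⟩
    filter_upwards [this] with m hm x
    rw [qq_top]
    unfold qq
    rw [if_neg hm]
    simpa using hε

theorem qq_glue (S : ℕ → Set ℝ) (n : ℕ) (t : ℝ) (ht : t ∈ S n) :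
    qq S (n, lo t) = qq S (n, hi t) := by
  funext s
  unfold qq
  by_cases h : ∃ k : ℕ, (n : OnePoint ℕ) = k ∧ s ∈ S k
  · simp only [if_pos h]
  · simp only [if_neg h]
    have hst : s ≠ t := by
      rintro rfl
      exact h ⟨n, rfl, ht⟩
    have : s < t ↔ s ≤ t := ⟨le_of_lt, fun h' => lt_of_le_of_ne h' hst⟩
    simp [ind, lo, hi, this]

/-- the image space -/
abbrev YY (S : ℕ → Set ℝ) : Type := range (qq S)

/-- the map onto the image -/
noncomputable def pr (S : ℕ → Set ℝ) (p : OnePoint ℕ × D) : YY S := ⟨qq S p, p, rfl⟩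

/-- the top level -/
def top (S : ℕ → Set ℝ) : Set (YY S) := range fun x : D => pr S (∞, x)

/-- coordinate functions on the top level -/
noncomputable def ee (S : ℕ → Set ℝ) (t : ℝ) : Cp (top S) :=
  ⟨fun a => a.1.1 t, ((continuous_apply t).comp continuous_subtype_val).comp
    continuous_subtype_val⟩

/-- points of the top level -/
noncomputable def io (S : ℕ → Set ℝ) (x : D) : top S := ⟨pr S (∞, x), x, rfl⟩

theorem ee_io (S : ℕ → Set ℝ) (t : ℝ) (x : D) : (ee S t).1 (io S x) = ind x t := qq_top S x t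

theorem io_lo_injective (S : ℕ → Set ℝ) : Function.Injective fun t => io S (lo t) := by
  have key : ∀ s t : ℝ, s < t → io S (lo s) ≠ io S (lo t) := by
    intro s t hst h
    have h1 := ee_io S s (lo s)
    rw [h, ee_io] at h1
    simp [ind, lo, hst] at h1
  intro s t h
  rcases lt_trichotomy s t with h' | h' | h'
  · exact absurd h (key s t h')
  · exact h'
  · exact absurd (Eq.symm h) (key t s h')

theorem countable_bad (S : ℕ → Set ℝ) [CompactSpace (top S)] (Φ : Cp (top S) → ℝ)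
    (hΦ : Continuous Φ) (P : Set ℝ) (c d : ℝ) (hcl : Ioo c d ⊆ closure P)
    (hP : ∀ s ∈ P, s ∈ Ioo c d → Φ (ee S s) < 1 / 4) :
    {t | t ∈ Ioo c d ∧ 1 / 2 < Φ (ee S t)}.Countable := by
  classical
  obtain ⟨P0, hP0, hc0, hd0⟩ :=
    (TopologicalSpace.IsSeparable.of_separableSpace (P ∩ Ioo c d)).exists_countable_dense_subset
  have hE : ∀ s : P0, ∃ E : Finset (top S), ∀ g : Cp (top S),
      (∀ a ∈ E, g.1 a = (ee S s).1 a) → g ∈ {g | Φ g < 1 / 4} := fun s =>
    exists_finite_support _ (isOpen_lt hΦ continuous_const) _ (hP s (hP0 s.2).1 (hP0 s.2).2)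
  choose E hE using hE
  have : Countable P0 := hc0.to_subtype
  have hZ : (⋃ s : P0, (E s : Set (top S))).Countable :=
    countable_iUnion fun s => (E s).countable_toSet
  refine (hZ.preimage (io_lo_injective S)).mono ?_
  rintro t ⟨ht, hΦt⟩
  by_contra hn
  obtain ⟨F, hF⟩ := exists_finite_support {g | 1 / 2 < Φ g} (isOpen_lt continuous_const hΦ) _ hΦt
  have h1 : ∀ᶠ s in 𝓝[<] t, ∀ a ∈ F, a ≠ io S (lo t) → (ee S s).1 a = (ee S t).1 a := by
    rw [Finset.eventually_all]
    rintro ⟨_, x, rfl⟩ _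
    by_cases hx : x = lo t
    · exact Eventually.of_forall fun s h => absurd (by rw [hx]; rfl) h
    · filter_upwards [eventually_left x t hx] with s hs _
      change (ee S s).1 (io S x) = (ee S t).1 (io S x)
      rw [ee_io, ee_io, ind, ind, hs]
  obtain ⟨s0, hs0, h2⟩ := (mem_nhdsLT_iff_exists_Ioo_subset).1 h1
  have hs0' : s0 < t := hs0
  have hmax : max s0 c < t := max_lt hs0' ht.1
  have hmid : (max s0 c + t) / 2 ∈ Ioo (max s0 c) t := ⟨by linarith, by linarith⟩
  have hmid2 : (max s0 c + t) / 2 ∈ Ioo c d :=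
    ⟨lt_of_le_of_lt (le_max_right _ _) hmid.1, hmid.2.trans ht.2⟩
  have hmid3 : (max s0 c + t) / 2 ∈ closure P0 := by
    have h3 : (max s0 c + t) / 2 ∈ closure (P ∩ Ioo c d) :=
      isOpen_Ioo.closure_inter ⟨hcl hmid2, hmid2⟩
    exact closure_minimal hd0 isClosed_closure h3
  obtain ⟨s, hs1, hs2⟩ := mem_closure_iff.1 hmid3 _ isOpen_Ioo hmid
  have h4 := h2 ⟨lt_of_le_of_lt (le_max_left _ _) hs1.1, hs1.2⟩
  obtain ⟨g, hg⟩ := exists_interp (E ⟨s, hs2⟩ ∪ F)
    (fun a => if a ∈ E ⟨s, hs2⟩ then (ee S s).1 a else (ee S t).1 a)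
  have g1 : Φ g < 1 / 4 := hE ⟨s, hs2⟩ g fun a ha => by
    rw [hg a (Finset.mem_union_left _ ha), if_pos ha]
  have g2 : 1 / 2 < Φ g := hF g fun a ha => by
    rw [hg a (Finset.mem_union_right _ ha)]
    split_ifs with h5
    · refine h4 a ha fun h6 => hn ?_
      exact mem_iUnion.2 ⟨⟨s, hs2⟩, by rw [h6] at h5; exact h5⟩
    · rfl
  linarith

theorem not_tembedded (S : ℕ → Set ℝ) (hS : ∀ t m n, t ∈ S m → t ∈ S n → m = n)
    (hfat : ∀ n a b, a < b → ∀ P : ℕ → Set ℝ, S n ∩ Ioo a b ⊆ ⋃ k, P k →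
      ∃ k, (interior (closure (P k))).Nonempty) [CompactSpace (top S)] :
    ¬ TEmbedded (top S) := by
  rintro ⟨φ, hφ, hext⟩
  have hpr : Continuous (pr S) := (continuous_qq S hS).subtype_mk _
  let Ψ : ℝ → OnePoint ℕ × D → ℝ := fun t p => (φ (ee S t)).1 (pr S p)
  have hΨ : ∀ t, Continuous (Ψ t) := fun t => by
    have h : Continuous (φ (ee S t)).1 := (φ (ee S t)).2
    exact h.comp hpr
  have hΨtop : ∀ t x, Ψ t (∞, x) = ind x t := fun t x =>
    (hext (ee S t) (io S x)).trans (ee_io S t x)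
  let T : ℕ → Set ℝ := fun n => {t | ∃ x, 1 / 8 ≤ |Ψ t (n, x) - ind x t|}
  have hT : ∀ t, ∃ n, t ∉ T n := by
    intro t
    have key : ∀ᶠ m in 𝓝 (∞ : OnePoint ℕ), ∀ x ∈ (univ : Set D),
        |Ψ t (m, x) - ind x t| < 1 / 8 := by
      refine isCompact_univ.eventually_forall_of_forall_eventually
        (P := fun m x => |Ψ t (m, x) - ind x t| < 1 / 8) fun y _ => ?_
      have hc : Continuous fun z : OnePoint ℕ × D => |Ψ t z - ind z.2 t| :=
        ((hΨ t).sub ((continuous_ind t).comp continuous_snd)).abs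
      refine (isOpen_lt hc continuous_const).mem_nhds ?_
      simp only [mem_ofPred_eq, hΨtop]
      norm_num
    obtain ⟨n, hn⟩ := (OnePoint.tendsto_coe_infty.eventually key).exists
    refine ⟨n, ?_⟩
    rintro ⟨x, hx⟩
    exact absurd (hn x (mem_univ _)) (not_lt.2 hx)
  have hloc : ∀ (n : ℕ) (a b : ℝ), a < b → ∃ c d : ℚ, a < c ∧ (c : ℝ) < d ∧ d < b ∧
      (Ioo (c : ℝ) d \ T n).Countable := by
    intro n a b hab
    let P : ℕ → Set ℝ := fun k => {t | t ∈ Ioo a b ∧ ∀ y1 y2, |y1 - t| < 1 / (k + 1) →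
      |y2 - t| < 1 / (k + 1) → Ψ t (n, lo y2) - Ψ t (n, lo y1) < 1 / 4}
    have hcov : S n ∩ Ioo a b ⊆ ⋃ k, P k := by
      rintro t ⟨ht, hab⟩
      have hlev : Continuous fun x : D => Ψ t (n, x) := (hΨ t).comp (by fun_prop)
      have hg : Ψ t (n, hi t) = Ψ t (n, lo t) := by
        have : pr S (n, hi t) = pr S (n, lo t) := Subtype.ext (qq_glue S n t ht).symm
        simp only [Ψ, this]
      have h1 : Tendsto (fun y => Ψ t (n, lo y)) (𝓝 t) (𝓝 (Ψ t (n, lo t))) := by
        rw [← nhdsLE_sup_nhdsGT t, tendsto_sup]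
        refine ⟨(hlev.tendsto _).comp (lo_left t), ?_⟩
        rw [← hg]
        exact (hlev.tendsto _).comp (lo_right t)
      obtain ⟨δ, hδ, h2⟩ := Metric.tendsto_nhds_nhds.1 h1 (1 / 8) (by norm_num)
      obtain ⟨k, hk⟩ := exists_nat_one_div_lt hδ
      refine mem_iUnion.2 ⟨k, hab, fun y1 y2 h3 h4 => ?_⟩
      have a1 := h2 (show dist y1 t < δ from lt_trans h3 hk)
      have a2 := h2 (show dist y2 t < δ from lt_trans h4 hk)
      rw [Real.dist_eq, abs_lt] at a1 a2
      linarith [a1.1, a2.2]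
    obtain ⟨k, x, hx⟩ := hfat n a b hab P hcov
    obtain ⟨ε, hε, hball⟩ := Metric.isOpen_iff.1 isOpen_interior x hx
    have hball' : Ioo (x - ε) (x + ε) ⊆ closure (P k) := by
      rw [← Real.ball_eq_Ioo]
      exact hball.trans interior_subset
    have hPab : closure (P k) ⊆ Icc a b :=
      closure_minimal (fun t ht => Ioo_subset_Icc_self ht.1) isClosed_Icc
    have hk : (0 : ℝ) < 1 / (k + 1) := by positivity
    set η : ℝ := min ε (1 / (k + 1)) with hη
    have hη0 : 0 < η := lt_min hε hk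
    have hη1 : η ≤ ε := min_le_left _ _
    have hη2 : η ≤ 1 / (k + 1) := min_le_right _ _
    obtain ⟨c, hc1, hc2⟩ := exists_rat_btwn (show x < x + η / 4 by linarith)
    obtain ⟨d, hd1, hd2⟩ := exists_rat_btwn (show x + η / 4 < x + η / 2 by linarith)
    have hxa : a ≤ x := (hPab (hball' ⟨by linarith, by linarith⟩)).1
    have hxb : x + η / 2 ≤ b := (hPab (hball' ⟨by linarith, by linarith⟩)).2
    refine ⟨c, d, by linarith, by linarith, by linarith, ?_⟩
    let Φ : Cp (top S) → ℝ := fun g => (φ g).1 (pr S (n, lo d)) - (φ g).1 (pr S (n, lo c))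
    have hΦ : Continuous Φ :=
      (((continuous_apply _).comp continuous_subtype_val).comp hφ).sub
        (((continuous_apply _).comp continuous_subtype_val).comp hφ)
    have hbad := countable_bad S Φ hΦ (P k) c d
      (fun t ht => hball' ⟨by linarith [ht.1], by linarith [ht.2]⟩) (by
        intro s hs hs'
        refine hs.2 c d ?_ ?_
        · rw [abs_lt]; constructor <;> linarith [hs'.1, hs'.2]
        · rw [abs_lt]; constructor <;> linarith [hs'.1, hs'.2])
    refine hbad.mono ?_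
    rintro t ⟨ht, htT⟩
    refine ⟨ht, ?_⟩
    have h1 : ∀ x, |Ψ t (n, x) - ind x t| < 1 / 8 := fun x => by
      by_contra h
      exact htT ⟨x, not_lt.1 h⟩
    have a1 := h1 (lo d)
    have a2 := h1 (lo c)
    have b1 : ind (lo d) t = 1 := by simp [ind, lo, ht.2]
    have b2 : ind (lo c) t = 0 := by simp [ind, lo, le_of_lt ht.1]
    rw [b1, abs_lt] at a1
    rw [b2, abs_lt] at a2
    change 1 / 2 < Ψ t (n, lo d) - Ψ t (n, lo c)
    linarith [a1.1, a2.2]
  let O : ℕ → Set ℝ := fun n => ⋃ i : {i : ℚ × ℚ // (Ioo (i.1 : ℝ) i.2 \ T n).Countable},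
    Ioo (i.1.1 : ℝ) i.1.2
  have hO1 : ∀ n, IsOpen (O n) := fun n => isOpen_iUnion fun _ => isOpen_Ioo
  have hO2 : ∀ n, Dense (O n) := by
    intro n
    rw [dense_iff_exists_between]
    intro a b hab
    obtain ⟨c, d, h1, h2, h3, h4⟩ := hloc n a b hab
    exact ⟨((c : ℝ) + d) / 2, mem_iUnion.2 ⟨⟨(c, d), h4⟩, by linarith, by linarith⟩,
      by linarith, by linarith⟩
  have hO3 : ∀ n, (O n \ T n).Countable := by
    intro n
    simp only [O]
    rw [iUnion_sdiff]
    exact countable_iUnion fun i => i.2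
  have hC : (⋃ n, O n \ T n).Countable := countable_iUnion hO3
  have hd := Dense.inter_of_Gδ (IsGδ.iInter_of_isOpen hO1) hC.isGδ_compl
    (dense_iInter_of_isOpen hO1 hO2) (hC.dense_compl ℝ)
  obtain ⟨t, ht1, ht2⟩ := hd.nonempty
  obtain ⟨n, hn⟩ := hT t
  exact ht2 (mem_iUnion.2 ⟨n, mem_iInter.1 ht1 n, hn⟩)

theorem main : ∃ (X Y : Type) (_ : TopologicalSpace X) (_ : TopologicalSpace Y),
    CompactSpace X ∧ T2Space X ∧ CompactSpace Y ∧ T2Space Y ∧
      (∃ f : X → Y, Continuous f ∧ Function.Surjective f) ∧ Extendial X ∧ ¬ TExtendial Y := by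
  obtain ⟨S, hS, hfat⟩ := exists_fat
  have hpr : Continuous (pr S) := (continuous_qq S hS).subtype_mk _
  have hc : IsCompact (top S) := isCompact_range (hpr.comp (by fun_prop))
  have : CompactSpace (top S) := isCompact_iff_compactSpace.1 hc
  refine ⟨OnePoint ℕ × D, YY S, inferInstance, inferInstance, inferInstance, inferInstance,
    isCompact_iff_compactSpace.1 (isCompact_range (continuous_qq S hS)), inferInstance,
    ⟨pr S, hpr, ?_⟩, extendial_X, fun h => not_tembedded S hS hfat (h _ hc.isClosed)⟩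
  rintro ⟨_, p, rfl⟩
  exact ⟨p, rfl⟩

end Pool.Agent.H64Z.Ext
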